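import Pool.Agent.N311.SH.Defs

/-! Project SH (helper311), page MP_c6d336_gt: N = 3.  Statements of the parts. -/

set_option autoImplicit false
open Set Metric Filter Topology MeasureTheory
open scoped OnePoint

namespace Pool.Agent.N311.SH

/-- a biholomorphic pair between the unit disc and the image of the disc under a homeomorphism -/
structure Bi (f : ℂ ≃ₜ ℂ) (φ ψ : ℂ → ℂ) : Prop where
  dφ : DifferentiableOn ℂ φ (ball 0 1)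
  dψ : DifferentiableOn ℂ ψ (f '' ball 0 1)
  mφ : MapsTo φ (ball 0 1) (f '' ball 0 1)
  mψ : MapsTo ψ (f '' ball 0 1) (ball 0 1)
  left : ∀ z ∈ ball (0 : ℂ) 1, ψ (φ z) = z
  right : ∀ w ∈ f '' ball (0 : ℂ) 1, φ (ψ w) = w

/-- LA: length-area principle. -/
def S_LA : Prop := ∀ (Ω : Set ℂ) (h : ℂ → ℂ), IsOpen Ω → DifferentiableOn ℂ h Ω → InjOn h Ω →
  volume (h '' Ω) < ⊤ → ∀ (w c : ℂ), ‖c‖ = 1 → ∀ (ε R : ℝ), 0 < ε → 0 < R →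
  ∃ r : ℝ, 0 < r ∧ r < R ∧
    ∫⁻ θ in Ioo (-Real.pi) Real.pi, Ω.indicator (fun z => ENNReal.ofReal (‖deriv h z‖ * r))
      (w + r * c * Complex.exp (θ * Complex.I)) ≤ ENNReal.ofReal ε

/-- C1: the Riemann map extends to the boundary (tame Caratheodory theorem, first half). -/
def S_C1 : Prop := ∀ (f : ℂ ≃ₜ ℂ) (φ ψ : ℂ → ℂ), Bi f φ ψ → ∀ ζ : ℂ, ‖ζ‖ = 1 →
  ∃ ξ : ℂ, Tendsto (fun z => f.symm (φ z)) (𝓝[ball 0 1] ζ) (𝓝 ξ)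

/-- C2: the inverse Riemann map extends to the boundary. -/
def S_C2 : Prop := ∀ (f : ℂ ≃ₜ ℂ) (φ ψ : ℂ → ℂ), Bi f φ ψ → ∀ ξ : ℂ, ‖ξ‖ = 1 →
  ∃ ζ : ℂ, Tendsto (fun z => ψ (f z)) (𝓝[ball 0 1] ξ) (𝓝 ζ)

/-- RM: Riemann mapping theorem for the image of the disc. -/
def S_RM : Prop := ∀ f : ℂ ≃ₜ ℂ, f 0 = 0 → ∃ φ ψ : ℂ → ℂ, Bi f φ ψ ∧ φ 0 = 0 ∧ deriv φ 0 ≠ 0

/-- EXT: the extended pair of inverse homeomorphisms of the closed disc. -/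
def S_EXT : Prop := ∀ (f : ℂ ≃ₜ ℂ) (φ ψ : ℂ → ℂ), Bi f φ ψ →
  ∃ u v : ℂ → ℂ, ContinuousOn u (closedBall 0 1) ∧ ContinuousOn v (closedBall 0 1) ∧
    (∀ z : ℂ, ‖z‖ ≤ 1 → ‖u z‖ ≤ 1 ∧ ‖v z‖ ≤ 1 ∧ v (u z) = z ∧ u (v z) = z) ∧
    (∀ z : ℂ, ‖z‖ < 1 → ‖u z‖ < 1 ∧ ‖v z‖ < 1 ∧ f z = φ (u z))

/-- CIR: homeomorphisms of the circle extended to the plane, standard near the centre. -/
def S_CIR : Prop := ∀ s : Circle ≃ₜ Circle, ∃ S : ℂ ≃ₜ ℂ, (∀ z, ‖S z‖ = ‖z‖) ∧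
  (∀ ζ : Circle, S (ζ : ℂ) = (s ζ : ℂ)) ∧ ∃ e : Bool, ∀ z, ‖z‖ ≤ 1 / 2 → S z = cj e z

/-- KLC: homeomorphisms of the plane can be made holomorphic or antiholomorphic near 0. -/
def S_KLC : Prop := ∀ f : ℂ ≃ₜ ℂ, f 0 = 0 → ∀ ε : ℝ, 0 < ε → ∃ k : ℂ ≃ₜ ℂ,
  (∀ z, ε ≤ ‖z‖ → k z = z) ∧ ∃ (δ : ℝ) (e : Bool) (φ : ℂ → ℂ), 0 < δ ∧ AnalyticAt ℂ φ 0 ∧
    φ 0 = 0 ∧ deriv φ 0 ≠ 0 ∧ ∀ z, ‖z‖ < δ → f (k z) = φ (cj e z)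

/-- LIN: holomorphic germs are straightened by a homeomorphism supported near 0. -/
def S_LIN : Prop := ∀ φ : ℂ → ℂ, AnalyticAt ℂ φ 0 → φ 0 = 0 → deriv φ 0 ≠ 0 →
  ∀ ε : ℝ, 0 < ε → ∃ k : ℂ ≃ₜ ℂ, (∀ z, ε ≤ ‖z‖ → k z = z) ∧ k 0 = 0 ∧
    ∃ δ : ℝ, 0 < δ ∧ ∀ z, ‖z‖ < δ → φ (k z) = z

/-- KL: homeomorphisms of the sphere fixing 0 can be made equal to `z` or `conj z` near 0. -/
def S_KL : Prop := ∀ f : Sph ≃ₜ Sph, f ((0 : ℂ) : Sph) = ((0 : ℂ) : Sph) → ∀ ε : ℝ, 0 < ε →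
  ∃ k : ℂ ≃ₜ ℂ, (∀ z, ε ≤ ‖z‖ → k z = z) ∧ k 0 = 0 ∧ ∃ (δ : ℝ) (e : Bool), 0 < δ ∧
    ∀ z : ℂ, ‖z‖ < δ → f ((k z : ℂ) : Sph) = ((cj e z : ℂ) : Sph)

/-- NF: every nontrivial homeomorphism is conjugate to one in local normal form at infinity. -/
def S_NF1 : Prop := ∀ A : Sph ≃ₜ Sph, A * A ≠ 1 →
  ∃ (H : Sph ≃ₜ Sph) (R : ℝ) (a : ℂ) (e e' : Bool), NForm (H * A * H⁻¹) R a e e'

def S_NF2 : Prop := ∀ A : Sph ≃ₜ Sph, A * A = 1 → A ≠ 1 →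
  ∃ (H : Sph ≃ₜ Sph) (R : ℝ) (a : ℂ) (e e' : Bool), NForm (H * A * H⁻¹) R a e e'

/-- PP: the ping-pong computation. -/
def S_PP : Prop := ∀ (A B : Sph ≃ₜ Sph) (RA RB : ℝ) (a b : ℂ) (e e' c c' : Bool),
  NForm A RA a e e' → NForm B RB b c c' → ∃ R s0 : ℝ, 0 < s0 ∧ ∀ s : ℝ, 0 < s → s < s0 →
    ∃ H : Sph ≃ₜ Sph, NSD (B * (H * A * H⁻¹)) (s ^ 2) (xor c e) R

/-- NS: north-south homeomorphisms that are linear near the attracting point are linear. -/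
def S_NS : Prop := ∀ (g : Sph ≃ₜ Sph) (l : ℝ) (hl : 0 < l) (e : Bool) (R : ℝ), l < 1 →
  NSD g l e R → ∃ K : Sph ≃ₜ Sph, K * g * K⁻¹ = T l hl.ne' e

/-- OR: `z ↦ l * conj z` is not isotopic to the identity. -/
def S_OR : Prop := ∀ (l : ℝ) (hl : 0 < l), ¬ Iso Sph (T l hl.ne' true)

/-- ISO: the maps isotopic to the identity form a normal subgroup. -/
def S_ISO : Prop := (∀ A B : Sph ≃ₜ Sph, Iso Sph A → Iso Sph B → Iso Sph (A * B)) ∧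
  (∀ A : Sph ≃ₜ Sph, Iso Sph A → Iso Sph A⁻¹) ∧
  (∀ H A : Sph ≃ₜ Sph, Iso Sph A → Iso Sph (H * A * H⁻¹))

/-- LOW: the elements which show that 1 and 2 conjugates are not enough. -/
def S_LOW : Prop := ∃ A B : Sph ≃ₜ Sph, Iso Sph A ∧ Iso Sph B ∧ A ≠ 1 ∧ A * A = 1 ∧ B ≠ 1 ∧
  B * B ≠ 1 ∧ ∀ H : Sph ≃ₜ Sph, H * B * H⁻¹ ≠ B⁻¹

/-- TR1: for compact Hausdorff spaces the path component is the set of maps isotopic to 1. -/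
def S_TR1 : Prop := ∀ (X : Type) [TopologicalSpace X] [CompactSpace X] [T2Space X] (A : X ≃ₜ X),
  A ∈ IdComp X ↔ Iso X A

/-- TR2: transport along a homeomorphism. -/
def S_TR2 : Prop := ∀ (X Y : Type) [TopologicalSpace X] [TopologicalSpace Y] [CompactSpace X]
  [T2Space X] [CompactSpace Y] [T2Space Y], (X ≃ₜ Y) → ∀ n : ℕ, P X n → P Y n

end Pool.Agent.N311.SH
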