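import Pool.Agent.N311.SH.Stm

/-! Project SH (helper311), page MP_c6d336_gt: N = 3.  Assembly. -/

set_option autoImplicit false
open Set Metric Filter Topology MeasureTheory
open scoped OnePoint

namespace Pool.Agent.N311.SH

/-- normal form for every nontrivial homeomorphism -/
theorem nf (h1 : S_NF1) (h2 : S_NF2) (A : Sph ≃ₜ Sph) (hA : A ≠ 1) :
    ∃ (H : Sph ≃ₜ Sph) (R : ℝ) (a : ℂ) (e e' : Bool), NForm (H * A * H⁻¹) R a e e' := by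
  by_cases h : A * A = 1
  · exact h2 A h hA
  · exact h1 A h

/-- the upper bound on the Riemann sphere -/
theorem upper (hNF1 : S_NF1) (hNF2 : S_NF2) (hPP : S_PP) (hNS : S_NS) (hOR : S_OR)
    (hISO : S_ISO) (A B : Sph ≃ₜ Sph) (hA : Iso Sph A) (hB : Iso Sph B) (hA1 : A ≠ 1)
    (hB1 : B ≠ 1) :
    ∃ X Y Z : Sph ≃ₜ Sph, B = (X * A * X⁻¹) * (Y * A * Y⁻¹) * (Z * A * Z⁻¹) := by
  obtain ⟨imul, iinv, iconj⟩ := hISO
  obtain ⟨H1, R1, a1, e1, e1', hN1⟩ := nf hNF1 hNF2 A hA1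
  obtain ⟨H2, R2, a2, e2, e2', hN2⟩ := nf hNF1 hNF2 B hB1
  obtain ⟨H3, R3, a3, e3, e3', hN3⟩ := nf hNF1 hNF2 A⁻¹ (by simpa using hA1)
  obtain ⟨R, s0, hs0, hP1⟩ := hPP _ _ _ _ _ _ _ _ _ _ hN1 hN1
  obtain ⟨R', s0', hs0', hP2⟩ := hPP _ _ _ _ _ _ _ _ _ _ hN3 hN2
  set s : ℝ := min (min s0 s0') 1 / 2 with hs
  have hm : 0 < min (min s0 s0') 1 := lt_min (lt_min hs0 hs0') one_pos
  have hspos : 0 < s := by rw [hs]; linarith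
  have hs1 : s < s0 := by
    have : min (min s0 s0') 1 ≤ s0 := le_trans (min_le_left _ _) (min_le_left _ _)
    rw [hs]; linarith
  have hs2 : s < s0' := by
    have : min (min s0 s0') 1 ≤ s0' := le_trans (min_le_left _ _) (min_le_right _ _)
    rw [hs]; linarith
  have hs3 : s < 1 := by
    have : min (min s0 s0') 1 ≤ 1 := min_le_right _ _
    rw [hs]; linarith
  obtain ⟨H4, hD1⟩ := hP1 s hspos hs1
  obtain ⟨H5, hD2⟩ := hP2 s hspos hs2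
  have hl : 0 < s ^ 2 := by positivity
  have hl1 : s ^ 2 < 1 := by nlinarith
  obtain ⟨K1, hK1⟩ := hNS _ _ hl _ _ hl1 hD1
  obtain ⟨K2, hK2⟩ := hNS _ _ hl _ _ hl1 hD2
  -- both types are orientation preserving
  have key : ∀ (e : Bool), Iso Sph (T (s ^ 2) hl.ne' e) → e = false := by
    intro e he
    cases e
    · rfl
    · exact absurd he (hOR _ hl)
  have hi1 : Iso Sph (T (s ^ 2) hl.ne' (xor e1 e1)) := by
    rw [← hK1]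
    exact iconj _ _ (imul _ _ (iconj _ _ hA) (iconj _ _ (iconj _ _ hA)))
  have hi2 : Iso Sph (T (s ^ 2) hl.ne' (xor e2 e3)) := by
    rw [← hK2]
    exact iconj _ _ (imul _ _ (iconj _ _ hB) (iconj _ _ (iconj _ _ (iinv _ hA))))
  rw [key _ hi1] at hK1
  rw [key _ hi2] at hK2
  have hKK := hK2.trans hK1.symm
  -- K2 g2 K2⁻¹ = K1 g1 K1⁻¹
  have hg2 : H2 * B * H2⁻¹ * (H5 * (H3 * A⁻¹ * H3⁻¹) * H5⁻¹) =
      K2⁻¹ * (K1 * (H1 * A * H1⁻¹ * (H4 * (H1 * A * H1⁻¹) * H4⁻¹)) * K1⁻¹) * K2 := by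
    rw [← hKK]; group
  have hB2 : B = H2⁻¹ * (K2⁻¹ * (K1 * (H1 * A * H1⁻¹ * (H4 * (H1 * A * H1⁻¹) * H4⁻¹)) * K1⁻¹)
      * K2) * (H5 * (H3 * A * H3⁻¹) * H5⁻¹) * H2 := by
    rw [← hg2]; group
  refine ⟨H2⁻¹ * K2⁻¹ * K1 * H1, H2⁻¹ * K2⁻¹ * K1 * H4 * H1, H2⁻¹ * H5 * H3, ?_⟩
  rw [hB2]
  group

theorem p3 (hNF1 : S_NF1) (hNF2 : S_NF2) (hPP : S_PP) (hNS : S_NS) (hOR : S_OR)
    (hISO : S_ISO) (hTR1 : S_TR1) : P Sph 3 := by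
  intro A hA B hB hA1 hB1
  obtain ⟨X, Y, Z, h⟩ := upper hNF1 hNF2 hPP hNS hOR hISO A B ((hTR1 Sph A).1 hA)
    ((hTR1 Sph B).1 hB) hA1 hB1
  refine ⟨![X, Y, Z], ?_⟩
  rw [h]
  simp [List.ofFn_succ, mul_assoc]

theorem not_p1 (hLOW : S_LOW) (hTR1 : S_TR1) : ¬ P Sph 1 := by
  intro h
  obtain ⟨A, B, hA, hB, hA1, hAA, hB1, hBB, hc⟩ := hLOW
  obtain ⟨H, hH⟩ := h A ((hTR1 Sph A).2 hA) B ((hTR1 Sph B).2 hB) hA1 hB1
  simp only [List.ofFn_succ, List.ofFn_zero, List.prod_cons, List.prod_nil, mul_one] at hH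
  apply hBB
  rw [hH]
  have : H 0 * A * (H 0)⁻¹ * (H 0 * A * (H 0)⁻¹) = H 0 * (A * A) * (H 0)⁻¹ := by group
  rw [this, hAA]; group

theorem not_p2 (hLOW : S_LOW) (hTR1 : S_TR1) : ¬ P Sph 2 := by
  intro h
  obtain ⟨A, B, hA, hB, hA1, hAA, hB1, hBB, hc⟩ := hLOW
  obtain ⟨H, hH⟩ := h A ((hTR1 Sph A).2 hA) B ((hTR1 Sph B).2 hB) hA1 hB1
  simp only [List.ofFn_succ, List.ofFn_zero, List.prod_cons, List.prod_nil, mul_one] at hH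
  set x := H 0 with hx
  set y := H (Fin.succ 0) with hy
  have hAi : A⁻¹ = A := by
    rw [inv_eq_iff_mul_eq_one]; exact hAA
  apply hc (x * A * x⁻¹)
  rw [hH]
  have h1 : x * A * x⁻¹ * (x * A * x⁻¹ * (y * A * y⁻¹)) * (x * A * x⁻¹)⁻¹ =
      x * (A * A) * x⁻¹ * (y * A * y⁻¹) * (x * A⁻¹ * x⁻¹) := by group
  have h2 : (x * A * x⁻¹ * (y * A * y⁻¹))⁻¹ = (y * A⁻¹ * y⁻¹) * (x * A⁻¹ * x⁻¹) := by group
  rw [h1, h2, hAA, hAi]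
  group

theorem final (hNF1 : S_NF1) (hNF2 : S_NF2) (hPP : S_PP) (hNS : S_NS) (hOR : S_OR)
    (hISO : S_ISO) (hLOW : S_LOW) (hTR1 : S_TR1) (hTR2 : S_TR2) :
    IsLeast {n : ℕ | 1 ≤ n ∧ P (sphere (0 : EuclideanSpace ℝ (Fin 3)) 1) n} 3 := by
  have e : Sph ≃ₜ sphere (0 : EuclideanSpace ℝ (Fin 3)) 1 :=
    onePointEquivSphereOfFinrankEq (by simp [Complex.finrank_real_complex])
  have hT1 : ∀ n, P Sph n → P (sphere (0 : EuclideanSpace ℝ (Fin 3)) 1) n :=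
    fun n => hTR2 _ _ e n
  have hT2 : ∀ n, P (sphere (0 : EuclideanSpace ℝ (Fin 3)) 1) n → P Sph n :=
    fun n => hTR2 _ _ e.symm n
  refine ⟨⟨by norm_num, hT1 3 (p3 hNF1 hNF2 hPP hNS hOR hISO hTR1)⟩, ?_⟩
  rintro n ⟨hn, hP⟩
  by_contra hlt
  push_neg at hlt
  interval_cases n
  · exact not_p1 hLOW hTR1 (hT2 1 hP)
  · exact not_p2 hLOW hTR1 (hT2 2 hP)

end Pool.Agent.N311.SH
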