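import Pool.Agent.N311.SH.Stm

/-! Project SH (helper311): boundary extension of the inverse Riemann map. -/

set_option autoImplicit false
open Set Metric Filter Topology MeasureTheory
open scoped OnePoint

namespace Pool.Agent.N311.SH

/-- derivative bound for `L (P θ) / ‖P θ‖`. -/
theorem c2_deriv (L : ℂ →L[ℝ] ℝ) (hL : ∀ z, |L z| ≤ ‖z‖) (P : ℝ → ℂ) (P' : ℂ) (θ : ℝ)
    (hP : HasDerivAt P P' θ) (hN : 1 / 2 < ‖P θ‖) :
    ∃ G' : ℝ, HasDerivAt (fun t => L (P t) / ‖P t‖) G' θ ∧ |G'| ≤ 4 * ‖P'‖ := by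
  have hpos : 0 < ‖P θ‖ := by linarith
  have h1 : HasDerivAt (fun t => L (P t)) (L P') θ := L.hasFDerivAt.comp_hasDerivAt θ hP
  have h2 : HasDerivAt (fun t => ‖P t‖) (inner ℝ (P θ) P' / ‖P θ‖) θ := by
    have h3 := hP.norm_sq
    have h4 := h3.sqrt (by positivity)
    have h5 : (fun t => √(‖P t‖ ^ 2)) = fun t => ‖P t‖ := by
      ext t; exact Real.sqrt_sq (norm_nonneg _)
    rw [h5] at h4
    convert h4 using 1
    rw [Real.sqrt_sq hpos.le]
    field_simp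
  refine ⟨_, h1.div h2 hpos.ne', ?_⟩
  have h6 : |inner ℝ (P θ) P' / ‖P θ‖| ≤ ‖P'‖ := by
    rw [abs_div, abs_of_pos hpos, div_le_iff₀ hpos, mul_comm]
    exact abs_real_inner_le_norm _ _
  rw [abs_div, abs_of_pos (by positivity : 0 < ‖P θ‖ ^ 2), div_le_iff₀ (by positivity)]
  have h7 : |L P' * ‖P θ‖ - L (P θ) * (inner ℝ (P θ) P' / ‖P θ‖)| ≤
      ‖P'‖ * ‖P θ‖ + ‖P θ‖ * ‖P'‖ := by
    refine (abs_sub _ _).trans ?_
    rw [abs_mul, abs_mul, abs_of_pos hpos]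
    have := hL P'
    have := hL (P θ)
    gcongr
  refine h7.trans ?_
  have : 0 ≤ ‖P'‖ := norm_nonneg _
  nlinarith [mul_nonneg this hpos.le, mul_nonneg (mul_nonneg this hpos.le) (by linarith : (0:ℝ) ≤ ‖P θ‖ - 1/2)]


/-- measure bound for one real functional -/
theorem c2_meas (L : ℂ →L[ℝ] ℝ) (hL : ∀ z, |L z| ≤ ‖z‖) (V : Set ℂ) (hV : IsOpen V) (ψ : ℂ → ℂ)
    (hψ : DifferentiableOn ℂ ψ V) (ω : ℂ) (r η : ℝ) (hr : 0 < r) (hη : 0 < η)
    (hbig : ∀ θ : ℝ, ω + r * Complex.exp (θ * Complex.I) ∈ V →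
      1 / 2 < ‖ψ (ω + r * Complex.exp (θ * Complex.I))‖)
    (hl : ∫⁻ θ in Ioo (-Real.pi) Real.pi, V.indicator (fun z => ENNReal.ofReal (‖deriv ψ z‖ * r))
      (ω + r * Complex.exp (θ * Complex.I)) ≤ ENNReal.ofReal (η / 4)) :
    volume ((fun θ : ℝ => L (ψ (ω + r * Complex.exp (θ * Complex.I))) /
      ‖ψ (ω + r * Complex.exp (θ * Complex.I))‖) ''
      {θ : ℝ | θ ∈ Ioo (-Real.pi) Real.pi ∧ ω + r * Complex.exp (θ * Complex.I) ∈ V}) ≤
      ENNReal.ofReal η := by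
  set Th : Set ℝ := {θ : ℝ | θ ∈ Ioo (-Real.pi) Real.pi ∧ ω + r * Complex.exp (θ * Complex.I) ∈ V}
    with hTh
  set c : ℝ → ℂ := fun θ => ω + r * Complex.exp (θ * Complex.I) with hc
  have hcc : Continuous c := by rw [hc]; fun_prop
  have hTo : IsOpen Th := isOpen_Ioo.inter (hV.preimage hcc)
  have hcd : ∀ θ : ℝ, HasDerivAt c (r * (Complex.exp (θ * Complex.I) * Complex.I)) θ := by
    intro θ
    have h1 : HasDerivAt (fun θ : ℝ => ((θ : ℂ) * Complex.I)) (Complex.I) θ := by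
      have := (Complex.ofRealCLM.hasDerivAt (x := θ)).mul_const Complex.I
      simpa using this
    have h2 := h1.cexp
    have h3 := (h2.const_mul (r : ℂ)).const_add ω
    simpa [hc] using h3
  have hPd : ∀ θ ∈ Th, ∃ G' : ℝ, HasDerivAt (fun θ : ℝ => L (ψ (c θ)) / ‖ψ (c θ)‖) G' θ ∧
      |G'| ≤ 4 * (‖deriv ψ (c θ)‖ * r) := by
    intro θ hθ
    have h1 : HasDerivAt (fun θ => ψ (c θ)) (deriv ψ (c θ) *
        (r * (Complex.exp (θ * Complex.I) * Complex.I))) θ := by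
      have h2 : HasDerivAt ψ (deriv ψ (c θ)) (c θ) :=
        ((hψ (c θ) hθ.2).differentiableAt (hV.mem_nhds hθ.2)).hasDerivAt
      exact h2.comp θ (hcd θ)
    obtain ⟨G', h3, h4⟩ := c2_deriv L hL (fun θ => ψ (c θ)) _ θ h1 (hbig θ hθ.2)
    refine ⟨G', h3, h4.trans_eq ?_⟩
    rw [norm_mul, norm_mul, norm_mul, Complex.norm_exp_ofReal_mul_I, Complex.norm_I,
      Complex.norm_real, Real.norm_of_nonneg hr.le]
    ring
  choose! G' hG' hG'b using hPd
  have h1 : volume ((fun θ : ℝ => L (ψ (c θ)) / ‖ψ (c θ)‖) '' Th) ≤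
      ∫⁻ θ in Th, ENNReal.ofReal |(ContinuousLinearMap.toSpanSingleton ℝ (G' θ)).det| := by
    apply MeasureTheory.addHaar_image_le_lintegral_abs_det_fderiv volume hTo.measurableSet
    intro θ hθ
    have := (hG' θ hθ).hasFDerivAt.hasFDerivWithinAt (s := Th)
    simpa using this
  refine h1.trans ?_
  have h2 : ∫⁻ θ in Th, ENNReal.ofReal |(ContinuousLinearMap.toSpanSingleton ℝ (G' θ)).det| ≤
      ∫⁻ θ in Th, 4 * V.indicator (fun z => ENNReal.ofReal (‖deriv ψ z‖ * r)) (c θ) := by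
    apply MeasureTheory.setLIntegral_mono' hTo.measurableSet
    intro θ hθ
    rw [indicator_of_mem hθ.2]
    have : (4 : ENNReal) = ENNReal.ofReal 4 := by norm_num
    rw [this, ← ENNReal.ofReal_mul (by norm_num)]
    apply ENNReal.ofReal_le_ofReal
    refine le_trans (le_of_eq ?_) (hG'b θ hθ)
    congr 1
    simp
  refine h2.trans ?_
  rw [lintegral_const_mul' _ _ (by norm_num)]
  have h3 : ∫⁻ θ in Th, V.indicator (fun z => ENNReal.ofReal (‖deriv ψ z‖ * r)) (c θ) ≤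
      ∫⁻ θ in Ioo (-Real.pi) Real.pi, V.indicator (fun z => ENNReal.ofReal (‖deriv ψ z‖ * r))
      (c θ) := lintegral_mono_set (fun θ hθ => hθ.1)
  calc 4 * ∫⁻ θ in Th, V.indicator (fun z => ENNReal.ofReal (‖deriv ψ z‖ * r)) (c θ)
      ≤ 4 * ENNReal.ofReal (η / 4) := by gcongr; exact h3.trans hl
    _ = ENNReal.ofReal η := by
        have : (4 : ENNReal) = ENNReal.ofReal 4 := by norm_num
        rw [this, ← ENNReal.ofReal_mul (by norm_num)]
        congr 1; ring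


/-- comparison for one real functional on the connected image -/
theorem c2_fun (L : ℂ →L[ℝ] ℝ) (hL : ∀ z, |L z| ≤ ‖z‖) (V : Set ℂ) (hV : IsOpen V) (ψ : ℂ → ℂ)
    (hψ : DifferentiableOn ℂ ψ V) (ω : ℂ) (r η : ℝ) (hr : 0 < r) (hη : 0 < η)
    (hbig : ∀ θ : ℝ, ω + r * Complex.exp (θ * Complex.I) ∈ V →
      1 / 2 < ‖ψ (ω + r * Complex.exp (θ * Complex.I))‖)
    (hl : ∫⁻ θ in Ioo (-Real.pi) Real.pi, V.indicator (fun z => ENNReal.ofReal (‖deriv ψ z‖ * r))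
      (ω + r * Complex.exp (θ * Complex.I)) ≤ ENNReal.ofReal (η / 4))
    (K : Set ℂ) (hK : IsPreconnected K) (hK0 : ∀ k ∈ K, k ≠ 0)
    (hKθ : ∀ k ∈ K, ∃ θ : ℝ, θ ∈ Ioc (-Real.pi) Real.pi ∧
      ω + r * Complex.exp (θ * Complex.I) ∈ V ∧ ∃ t : ℝ, 0 < t ∧
        ψ (ω + r * Complex.exp (θ * Complex.I)) = t * k) :
    ∀ k ∈ K, ∀ k' ∈ K, |L k / ‖k‖ - L k' / ‖k'‖| ≤ η := by
  have hm := c2_meas L hL V hV ψ hψ ω r η hr hη hbig hl
  set G : ℝ → ℝ := fun θ : ℝ => L (ψ (ω + r * Complex.exp (θ * Complex.I))) /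
      ‖ψ (ω + r * Complex.exp (θ * Complex.I))‖ with hG
  set Th : Set ℝ := {θ : ℝ | θ ∈ Ioo (-Real.pi) Real.pi ∧ ω + r * Complex.exp (θ * Complex.I) ∈ V}
    with hTh
  have hFc : ContinuousOn (fun k : ℂ => L k / ‖k‖) K :=
    ContinuousOn.div L.continuous.continuousOn continuous_norm.continuousOn
      (fun k hk => norm_ne_zero_iff.2 (hK0 k hk))
  have hpre : IsPreconnected ((fun k : ℂ => L k / ‖k‖) '' K) := hK.image _ hFc
  have hsub : (fun k : ℂ => L k / ‖k‖) '' K ⊆ G '' Th ∪ {G Real.pi} := by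
    rintro _ ⟨k, hk, rfl⟩
    obtain ⟨θ, hθ, hθV, t, ht, hψt⟩ := hKθ k hk
    have hval : G θ = L k / ‖k‖ := by
      simp only [hG]
      rw [hψt]
      have h1 : L ((t : ℂ) * k) = t * L k := by
        have : (t : ℂ) * k = t • k := by simp
        rw [this, map_smul]; rfl
      rw [h1, norm_mul, Complex.norm_real, Real.norm_of_nonneg ht.le]
      field_simp
    rcases eq_or_lt_of_le hθ.2 with h | h
    · right
      simp only [mem_singleton_iff]
      rw [← hval, h]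
    · left
      exact ⟨θ, ⟨⟨hθ.1, h⟩, hθV⟩, hval⟩
  intro k hk k' hk'
  have hI : uIcc (L k / ‖k‖) (L k' / ‖k'‖) ⊆ G '' Th ∪ {G Real.pi} :=
    (hpre.ordConnected.uIcc_subset ⟨k, hk, rfl⟩ ⟨k', hk', rfl⟩).trans hsub
  have hv : volume (uIcc (L k / ‖k‖) (L k' / ‖k'‖)) ≤ ENNReal.ofReal η := by
    refine (measure_mono hI).trans ((measure_union_le _ _).trans ?_)
    simpa using hm
  rw [uIcc, Real.volume_Icc, ENNReal.ofReal_le_ofReal_iff hη.le, max_sub_min_eq_abs] at hv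
  rwa [abs_sub_comm]

theorem c2 (hLA : S_LA) : S_C2 := by
  intro f φ ψ hB ξ hξ
  set D : Set ℂ := ball 0 1 with hD
  set V : Set ℂ := f '' D with hV
  have hVo : IsOpen V := f.isOpenMap _ isOpen_ball
  set ω : ℂ := f ξ with hω
  have hωV : ω ∉ V := by
    rintro ⟨z, hz, h⟩
    have : z = ξ := f.injective h
    subst this
    simp [hD, hξ] at hz
  have hφc : ContinuousOn φ D := hB.dφ.continuousOn
  have hgD : ∀ z ∈ D, f z ∈ V := fun z hz => ⟨z, hz, rfl⟩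
  -- main oscillation estimate
  have main : ∀ η : ℝ, 0 < η → η < 1 / 2 → ∃ δ : ℝ, 0 < δ ∧ ∀ z ∈ D ∩ ball ξ δ, ∀ z' ∈ D ∩ ball ξ δ,
      ‖ψ (f z) - ψ (f z')‖ ≤ 4 * η := by
    intro η hη hη2
    -- R0
    obtain ⟨R0, hR0, hR0b⟩ : ∃ R0 : ℝ, 0 < R0 ∧ ∀ y : ℂ, ‖y‖ ≤ 1 / 2 → R0 ≤ ‖φ y - ω‖ := by
      have hsub : closedBall (0 : ℂ) (1 / 2) ⊆ D := closedBall_subset_ball (by norm_num)
      have hcpt : IsCompact (φ '' closedBall (0 : ℂ) (1 / 2)) :=
        (isCompact_closedBall _ _).image_of_continuousOn (hφc.mono hsub)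
      have hnot : ω ∈ (φ '' closedBall (0 : ℂ) (1 / 2))ᶜ := by
        rintro ⟨y, hy, h⟩
        exact hωV (h ▸ hB.mφ (hsub hy))
      obtain ⟨R0, hR0, hb⟩ := Metric.isOpen_iff.1 hcpt.isClosed.isOpen_compl ω hnot
      refine ⟨R0, hR0, fun y hy => ?_⟩
      by_contra hlt
      push Not at hlt
      have : φ y ∈ ball ω R0 := by rwa [mem_ball, dist_eq_norm]
      exact hb this ⟨y, by simpa using hy, rfl⟩
    have hinj : InjOn ψ V := by
      intro a ha b hb h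
      rw [← hB.right a ha, ← hB.right b hb, h]
    have hfin : volume (ψ '' V) < ⊤ := by
      refine lt_of_le_of_lt (measure_mono ?_) (measure_ball_lt_top (x := (0 : ℂ)) (r := 1))
      rintro _ ⟨a, ha, rfl⟩
      exact hB.mψ ha
    obtain ⟨r, hr, hrR, hl⟩ := hLA V ψ hVo hB.dψ hinj hfin ω 1 (by simp) (η / 4) R0
      (by positivity) hR0
    simp only [mul_one] at hl
    have hbig' : ∀ y ∈ D, ‖φ y - ω‖ ≤ r → 1 / 2 < ‖y‖ := by
      intro y _ h
      by_contra hlt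
      push Not at hlt
      have := hR0b y hlt
      linarith
    have hbig : ∀ θ : ℝ, ω + r * Complex.exp (θ * Complex.I) ∈ V →
        1 / 2 < ‖ψ (ω + r * Complex.exp (θ * Complex.I))‖ := by
      intro θ hθ
      apply hbig' _ (hB.mψ hθ)
      rw [hB.right _ hθ, add_sub_cancel_left, norm_mul, Complex.norm_exp_ofReal_mul_I,
        Complex.norm_real, Real.norm_of_nonneg hr.le, mul_one]
    -- delta
    obtain ⟨δ1, hδ1, hδ1b⟩ : ∃ δ1 : ℝ, 0 < δ1 ∧ ∀ z, ‖z - ξ‖ < δ1 → ‖f z - ω‖ < r := by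
      obtain ⟨δ1, h1, h2⟩ := Metric.continuous_iff.1 f.continuous ξ r hr
      exact ⟨δ1, h1, fun z hz => by
        have := h2 z (by rwa [dist_eq_norm])
        rwa [dist_eq_norm] at this⟩
    obtain ⟨δ2, hδ2, hδ2b⟩ : ∃ δ2 : ℝ, 0 < δ2 ∧ ∀ z ∈ D, ‖z - ξ‖ < δ2 → 1 - η < ‖ψ (f z)‖ := by
      have hsub : closedBall (0 : ℂ) (1 - η) ⊆ D := closedBall_subset_ball (by linarith)
      have hcpt : IsCompact (f.symm '' (φ '' closedBall (0 : ℂ) (1 - η))) :=
        ((isCompact_closedBall _ _).image_of_continuousOn (hφc.mono hsub)).image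
          f.symm.continuous
      have hnot : ξ ∈ (f.symm '' (φ '' closedBall (0 : ℂ) (1 - η)))ᶜ := by
        rintro ⟨_, ⟨y, hy, rfl⟩, h⟩
        apply hωV
        rw [hω, ← h, Homeomorph.apply_symm_apply]
        exact hB.mφ (hsub hy)
      obtain ⟨δ2, hδ2, hb⟩ := Metric.isOpen_iff.1 hcpt.isClosed.isOpen_compl ξ hnot
      refine ⟨δ2, hδ2, fun z hz hzξ => ?_⟩
      by_contra hlt
      push Not at hlt
      have : z ∈ ball ξ δ2 := by rwa [mem_ball, dist_eq_norm]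
      apply hb this
      refine ⟨f z, ⟨ψ (f z), by simpa using hlt, hB.right _ (hgD z hz)⟩, by simp⟩
    refine ⟨min δ1 δ2, lt_min hδ1 hδ2, ?_⟩
    set N : Set ℂ := D ∩ ball ξ (min δ1 δ2) with hN
    have hNc : Convex ℝ N := (convex_ball _ _).inter (convex_ball _ _)
    have hgc : ContinuousOn (fun z => ψ (f z)) N := by
      have h1 : ContinuousOn ψ V := hB.dψ.continuousOn
      exact h1.comp f.continuous.continuousOn (fun z hz => hgD z hz.1)
    have hKpre : IsPreconnected ((fun z => ψ (f z)) '' N) := hNc.isPreconnected.image _ hgc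
    have hK1 : ∀ k ∈ (fun z => ψ (f z)) '' N, k ∈ D ∧ 1 - η < ‖k‖ ∧ ‖φ k - ω‖ < r := by
      rintro _ ⟨z, hz, rfl⟩
      have hz2 : ‖z - ξ‖ < min δ1 δ2 := by
        have := hz.2
        rwa [mem_ball, dist_eq_norm] at this
      refine ⟨hB.mψ (hgD z hz.1), hδ2b z hz.1 (lt_of_lt_of_le hz2 (min_le_right _ _)), ?_⟩
      simp only
      rw [hB.right _ (hgD z hz.1)]
      exact hδ1b z (lt_of_lt_of_le hz2 (min_le_left _ _))
    have hKθ : ∀ k ∈ (fun z => ψ (f z)) '' N, ∃ θ : ℝ, θ ∈ Ioc (-Real.pi) Real.pi ∧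
        ω + r * Complex.exp (θ * Complex.I) ∈ V ∧ ∃ t : ℝ, 0 < t ∧
        ψ (ω + r * Complex.exp (θ * Complex.I)) = t * k := by
      intro k hk
      obtain ⟨hkD, hk1, hk2⟩ := hK1 k hk
      have hkn : ‖k‖ < 1 := by simpa [hD] using hkD
      have htk : ∀ t ∈ Icc (0 : ℝ) 1, (t : ℂ) * k ∈ D := by
        intro t ht
        rw [hD, mem_ball_zero_iff, norm_mul, Complex.norm_real, Real.norm_of_nonneg ht.1]
        nlinarith [norm_nonneg k, ht.1, ht.2]
      have hcont : ContinuousOn (fun t : ℝ => ‖φ ((t : ℂ) * k) - ω‖) (Icc 0 1) := by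
        apply ContinuousOn.norm
        apply ContinuousOn.sub _ continuousOn_const
        exact hφc.comp (by fun_prop) htk
      have hivt := intermediate_value_Icc' (zero_le_one (α := ℝ)) hcont
      have h0 : R0 ≤ ‖φ (((0 : ℝ) : ℂ) * k) - ω‖ := by
        apply hR0b; simp
      have h1 : ‖φ (((1 : ℝ) : ℂ) * k) - ω‖ < r := by simpa using hk2
      obtain ⟨t, ht, htr⟩ := hivt ⟨h1.le, (hrR.le).trans h0⟩
      simp only at htr
      have ht0 : 0 < t := by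
        rcases eq_or_lt_of_le ht.1 with h | h
        · rw [← h] at htr
          linarith
        · exact h
      have hyD := htk t ht
      refine ⟨Complex.arg (φ ((t : ℂ) * k) - ω), Complex.arg_mem_Ioc _, ?_⟩
      have hpt : ω + r * Complex.exp (Complex.arg (φ ((t : ℂ) * k) - ω) * Complex.I) =
          φ ((t : ℂ) * k) := by
        rw [← htr, Complex.norm_mul_exp_arg_mul_I]; ring
      rw [hpt]
      exact ⟨hB.mφ hyD, t, ht0, hB.left _ hyD⟩
    have hK0 : ∀ k ∈ (fun z => ψ (f z)) '' N, k ≠ 0 := by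
      intro k hk h
      have := (hK1 k hk).2.1
      rw [h, norm_zero] at this
      linarith
    have hre := c2_fun Complex.reCLM (fun z => Complex.abs_re_le_norm z) V hVo ψ hB.dψ ω r η hr hη
      hbig hl _ hKpre hK0 hKθ
    have him := c2_fun Complex.imCLM (fun z => Complex.abs_im_le_norm z) V hVo ψ hB.dψ ω r η hr hη
      hbig hl _ hKpre hK0 hKθ
    intro z hz z' hz'
    set k := ψ (f z) with hk
    set k' := ψ (f z') with hk'
    have hkK : k ∈ (fun z => ψ (f z)) '' N := ⟨z, hz, rfl⟩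
    have hkK' : k' ∈ (fun z => ψ (f z)) '' N := ⟨z', hz', rfl⟩
    have e1 := hre k hkK k' hkK'
    have e2 := him k hkK k' hkK'
    have hn := (hK1 k hkK).2.1
    have hn' := (hK1 k' hkK').2.1
    have hd := (hK1 k hkK).1
    have hd' := (hK1 k' hkK').1
    rw [hD, mem_ball_zero_iff] at hd hd'
    have hpos : 0 < ‖k‖ := by linarith
    have hpos' : 0 < ‖k'‖ := by linarith
    have e3 : ‖k / ‖k‖ - k' / ‖k'‖‖ ≤ 2 * η := by
      refine (Complex.norm_le_abs_re_add_abs_im _).trans ?_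
      have r1 : (k / ‖k‖ - k' / ‖k'‖).re = k.re / ‖k‖ - k'.re / ‖k'‖ := by
        rw [Complex.sub_re, Complex.div_ofReal_re, Complex.div_ofReal_re]
      have r2 : (k / ‖k‖ - k' / ‖k'‖).im = k.im / ‖k‖ - k'.im / ‖k'‖ := by
        rw [Complex.sub_im, Complex.div_ofReal_im, Complex.div_ofReal_im]
      rw [r1, r2]
      simp only [Complex.reCLM_apply, Complex.imCLM_apply] at e1 e2
      linarith
    have e4 : ‖k - k / ‖k‖‖ ≤ η := by
      have : k - k / ‖k‖ = k * (((1 - 1 / ‖k‖ : ℝ)) : ℂ) := by push_cast; ring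
      rw [this, norm_mul, Complex.norm_real, Real.norm_eq_abs, ← abs_of_pos hpos, ← abs_mul,
        abs_of_pos hpos]
      have : ‖k‖ * (1 - 1 / ‖k‖) = ‖k‖ - 1 := by field_simp
      rw [this, abs_le]
      constructor <;> linarith
    have e5 : ‖k' / ‖k'‖ - k'‖ ≤ η := by
      have : k' / ‖k'‖ - k' = -(k' * (((1 - 1 / ‖k'‖ : ℝ)) : ℂ)) := by push_cast; ring
      rw [this, norm_neg, norm_mul, Complex.norm_real, Real.norm_eq_abs, ← abs_of_pos hpos',
        ← abs_mul, abs_of_pos hpos']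
      have : ‖k'‖ * (1 - 1 / ‖k'‖) = ‖k'‖ - 1 := by field_simp
      rw [this, abs_le]
      constructor <;> linarith
    calc ‖k - k'‖ = ‖(k - k / ‖k‖) + (k / ‖k‖ - k' / ‖k'‖) + (k' / ‖k'‖ - k')‖ := by
          congr 1; ring
      _ ≤ ‖k - k / ‖k‖‖ + ‖k / ‖k‖ - k' / ‖k'‖‖ + ‖k' / ‖k'‖ - k'‖ := norm_add₃_le
      _ ≤ 4 * η := by linarith
  -- conclusion
  have hne : (𝓝[D] ξ).NeBot := by
    rw [← mem_closure_iff_nhdsWithin_neBot, hD, closure_ball _ one_ne_zero]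
    simp [hξ]
  have hcau : Cauchy (map (fun z => ψ (f z)) (𝓝[D] ξ)) := by
    rw [Metric.cauchy_iff]
    refine ⟨hne.map _, fun ε hε => ?_⟩
    obtain ⟨δ, hδ, h⟩ := main (min (ε / 8) (1 / 4)) (by positivity)
      (lt_of_le_of_lt (min_le_right _ _) (by norm_num))
    refine ⟨(fun z => ψ (f z)) '' (D ∩ ball ξ δ), image_mem_map (inter_mem
      self_mem_nhdsWithin (mem_nhdsWithin_of_mem_nhds (ball_mem_nhds ξ hδ))), ?_⟩
    rintro _ ⟨z, hz, rfl⟩ _ ⟨z', hz', rfl⟩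
    rw [dist_eq_norm]
    refine lt_of_le_of_lt (h z hz z' hz') ?_
    have : min (ε / 8) (1 / 4) ≤ ε / 8 := min_le_left _ _
    linarith
  obtain ⟨ζ, hζ⟩ := CompleteSpace.complete hcau
  exact ⟨ζ, hζ⟩

end Pool.Agent.N311.SH
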