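import Mathlib

/-! Project SH (helper311), page MP_c6d336_gt: N = 3.  Definitions. -/

set_option autoImplicit false
open Set Metric Filter Topology MeasureTheory
open scoped OnePoint

namespace Pool.Agent.N311.SH

/-- The compact-open topology on the group of homeomorphisms of `X`. -/
def homeoTop (X : Type*) [TopologicalSpace X] : TopologicalSpace (X ≃ₜ X) :=
  TopologicalSpace.induced (fun h : X ≃ₜ X => (⟨h, h.continuous⟩ : C(X, X))) inferInstance

/-- The path component of the identity in the homeomorphism group. -/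
def IdComp (X : Type*) [TopologicalSpace X] : Set (X ≃ₜ X) :=
  {A | @Joined (X ≃ₜ X) (homeoTop X) 1 A}

/-- `P X n`: any two nontrivial elements `A, B` of the identity component: `B` is a product of
exactly `n` conjugates of `A` by homeomorphisms of `X`. -/
def P (X : Type*) [TopologicalSpace X] (n : ℕ) : Prop :=
  ∀ A ∈ IdComp X, ∀ B ∈ IdComp X, A ≠ 1 → B ≠ 1 →
    ∃ H : Fin n → (X ≃ₜ X), B = (List.ofFn fun i => H i * A * (H i)⁻¹).prod

/-- `A` is isotopic to the identity. -/
def Iso (X : Type*) [TopologicalSpace X] (A : X ≃ₜ X) : Prop :=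
  ∃ F : unitInterval → (X ≃ₜ X),
    Continuous (fun p : unitInterval × X => F p.1 p.2) ∧ F 0 = 1 ∧ F 1 = A

/-- the Riemann sphere -/
abbrev Sph : Type := OnePoint ℂ

/-- `z` or its complex conjugate. -/
noncomputable def cj (b : Bool) (z : ℂ) : ℂ := if b then (starRingEnd ℂ) z else z

@[simp] theorem cj_false (z : ℂ) : cj false z = z := rfl
@[simp] theorem cj_true (z : ℂ) : cj true z = (starRingEnd ℂ) z := rfl
@[simp] theorem cj_zero (b : Bool) : cj b 0 = 0 := by cases b <;> simp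
@[simp] theorem norm_cj (b : Bool) (z : ℂ) : ‖cj b z‖ = ‖z‖ := by cases b <;> simp
@[simp] theorem cj_cj (b : Bool) (z : ℂ) : cj b (cj b z) = z := by cases b <;> simp
theorem cj_add (b : Bool) (z w : ℂ) : cj b (z + w) = cj b z + cj b w := by cases b <;> simp
theorem cj_sub (b : Bool) (z w : ℂ) : cj b (z - w) = cj b z - cj b w := by cases b <;> simp
theorem cj_mul (b : Bool) (z w : ℂ) : cj b (z * w) = cj b z * cj b w := by cases b <;> simp
theorem cj_inv (b : Bool) (z : ℂ) : cj b z⁻¹ = (cj b z)⁻¹ := by cases b <;> simp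
@[simp] theorem cj_ofReal (b : Bool) (r : ℝ) : cj b (r : ℂ) = (r : ℂ) := by cases b <;> simp
theorem cj_comp (b c : Bool) (z : ℂ) : cj b (cj c z) = cj (xor b c) z := by
  cases b <;> cases c <;> simp
theorem cj_eq_zero (b : Bool) (z : ℂ) : cj b z = 0 ↔ z = 0 := by
  cases b <;> simp
theorem continuous_cj (b : Bool) : Continuous (cj b) := by
  cases b
  · exact continuous_id
  · exact Complex.continuous_conj

/-- `cj b` as a homeomorphism of the plane -/
noncomputable def cjH (b : Bool) : ℂ ≃ₜ ℂ where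
  toFun := cj b
  invFun := cj b
  left_inv := cj_cj b
  right_inv := cj_cj b
  continuous_toFun := continuous_cj b
  continuous_invFun := continuous_cj b

@[simp] theorem cjH_apply (b : Bool) (z : ℂ) : cjH b z = cj b z := rfl

/-- a homeomorphism of the plane extended to the sphere by fixing infinity -/
noncomputable def ext (k : ℂ ≃ₜ ℂ) : Sph ≃ₜ Sph := k.onePointCongr

@[simp] theorem ext_coe (k : ℂ ≃ₜ ℂ) (z : ℂ) : ext k (z : Sph) = ((k z : ℂ) : Sph) := rfl
@[simp] theorem ext_infty (k : ℂ ≃ₜ ℂ) : ext k (∞ : Sph) = ∞ := rfl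
@[simp] theorem ext_inv_coe (k : ℂ ≃ₜ ℂ) (z : ℂ) :
    (ext k)⁻¹ (z : Sph) = ((k.symm z : ℂ) : Sph) := rfl
@[simp] theorem ext_inv_infty (k : ℂ ≃ₜ ℂ) : (ext k)⁻¹ (∞ : Sph) = ∞ := rfl

/-- inversion `z ↦ 1/z` on the sphere, as a map -/
noncomputable def invMap (x : Sph) : Sph :=
  OnePoint.elim x ((0 : ℂ) : Sph) (fun z => if z = 0 then ∞ else ((z⁻¹ : ℂ) : Sph))

theorem invMap_infty : invMap ∞ = ((0 : ℂ) : Sph) := rfl
theorem invMap_zero : invMap ((0 : ℂ) : Sph) = ∞ := by simp [invMap]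
theorem invMap_coe {z : ℂ} (hz : z ≠ 0) : invMap (z : Sph) = ((z⁻¹ : ℂ) : Sph) := by
  simp [invMap, hz]

theorem invMap_invMap (x : Sph) : invMap (invMap x) = x := by
  induction x using OnePoint.rec with
  | infty => rw [invMap_infty, invMap_zero]
  | coe z =>
    by_cases hz : z = 0
    · subst hz; rw [invMap_zero, invMap_infty]
    · rw [invMap_coe hz, invMap_coe (inv_ne_zero hz), inv_inv]

theorem continuous_invMap : Continuous invMap := by
  rw [OnePoint.continuous_iff]
  constructor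
  · rw [invMap_infty, coclosedCompact_eq_cocompact]
    have h1 : Tendsto (fun z : ℂ => ((z⁻¹ : ℂ) : Sph)) (cocompact ℂ) (𝓝 ((0 : ℂ) : Sph)) := by
      rw [← Metric.cobounded_eq_cocompact]
      exact (OnePoint.continuous_coe.tendsto _).comp tendsto_inv₀_cobounded
    refine h1.congr' ?_
    have : {z : ℂ | z ≠ 0} ∈ cocompact ℂ := by
      rw [mem_cocompact]
      exact ⟨{0}, isCompact_singleton, fun z hz => by simpa using hz⟩
    filter_upwards [this] with z hz
    exact (invMap_coe hz).symm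
  · rw [continuous_iff_continuousAt]
    intro z
    by_cases hz : z = 0
    · subst hz
      have : ContinuousAt (fun z : ℂ => invMap (z : Sph)) 0 := by
        rw [← continuousWithinAt_compl_self]
        have h1 : Tendsto (fun z : ℂ => ((z⁻¹ : ℂ) : Sph)) (𝓝[≠] 0) (𝓝 (∞ : Sph)) := by
          have := OnePoint.tendsto_coe_infty (X := ℂ)
          rw [coclosedCompact_eq_cocompact] at this
          exact this.comp (by
            rw [← Metric.cobounded_eq_cocompact]; exact tendsto_inv₀_nhdsNE_zero)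
        show Tendsto (fun z : ℂ => invMap (z : Sph)) (𝓝[≠] 0) (𝓝 (invMap ((0 : ℂ) : Sph)))
        rw [invMap_zero]
        refine h1.congr' ?_
        filter_upwards [self_mem_nhdsWithin] with w hw
        exact (invMap_coe hw).symm
      exact this
    · have h1 : ContinuousAt (fun z : ℂ => ((z⁻¹ : ℂ) : Sph)) z :=
        (OnePoint.continuous_coe.continuousAt).comp (continuousAt_inv₀ hz)
      refine h1.congr ?_
      filter_upwards [isOpen_ne.mem_nhds hz] with w hw
      exact (invMap_coe hw).symm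

/-- inversion `z ↦ 1/z` as a homeomorphism of the sphere -/
noncomputable def J : Sph ≃ₜ Sph where
  toFun := invMap
  invFun := invMap
  left_inv := invMap_invMap
  right_inv := invMap_invMap
  continuous_toFun := continuous_invMap
  continuous_invFun := continuous_invMap

@[simp] theorem J_infty : J ∞ = ((0 : ℂ) : Sph) := invMap_infty
@[simp] theorem J_zero : J ((0 : ℂ) : Sph) = ∞ := invMap_zero
theorem J_coe {z : ℂ} (hz : z ≠ 0) : J (z : Sph) = ((z⁻¹ : ℂ) : Sph) := invMap_coe hz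
@[simp] theorem J_J (x : Sph) : J (J x) = x := invMap_invMap x
theorem J_inv : J⁻¹ = J := rfl

/-- `z ↦ l * cj e z` on the plane, `l ≠ 0` -/
noncomputable def linH (l : ℝ) (hl : l ≠ 0) (e : Bool) : ℂ ≃ₜ ℂ where
  toFun z := (l : ℂ) * cj e z
  invFun z := cj e (((l : ℂ)⁻¹) * z)
  left_inv z := by
    have : (l : ℂ) ≠ 0 := by exact_mod_cast hl
    simp only
    rw [← mul_assoc, inv_mul_cancel₀ this, one_mul, cj_cj]
  right_inv z := by
    have : (l : ℂ) ≠ 0 := by exact_mod_cast hl
    simp only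
    rw [cj_cj, ← mul_assoc, mul_inv_cancel₀ this, one_mul]
  continuous_toFun := continuous_const.mul (continuous_cj e)
  continuous_invFun := (continuous_cj e).comp (continuous_const.mul continuous_id)

/-- `T l e`: the map `z ↦ l * cj e z` of the sphere -/
noncomputable def T (l : ℝ) (hl : l ≠ 0) (e : Bool) : Sph ≃ₜ Sph := ext (linH l hl e)

@[simp] theorem T_coe (l : ℝ) (hl : l ≠ 0) (e : Bool) (z : ℂ) :
    T l hl e (z : Sph) = (((l : ℂ) * cj e z : ℂ) : Sph) := rfl
@[simp] theorem T_infty (l : ℝ) (hl : l ≠ 0) (e : Bool) : T l hl e ∞ = ∞ := rfl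

/-- translation `z ↦ z + a` of the sphere -/
noncomputable def tr (a : ℂ) : Sph ≃ₜ Sph := ext (Homeomorph.addRight a)

@[simp] theorem tr_coe (a z : ℂ) : tr a (z : Sph) = ((z + a : ℂ) : Sph) := rfl
@[simp] theorem tr_infty (a : ℂ) : tr a ∞ = ∞ := rfl

/-- Local normal form: near infinity `A w = 1 / cj e w` and `A⁻¹ w = a + 1 / cj e' w`. -/
def NForm (A : Sph ≃ₜ Sph) (R : ℝ) (a : ℂ) (e e' : Bool) : Prop :=
  0 < R ∧ A ∞ = ((0 : ℂ) : Sph) ∧ A⁻¹ ∞ = (a : Sph) ∧
    ∀ w : ℂ, R ≤ ‖w‖ →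
      A (w : Sph) = (((cj e w)⁻¹ : ℂ) : Sph) ∧ A⁻¹ (w : Sph) = ((a + (cj e' w)⁻¹ : ℂ) : Sph)

/-- North-south data: `g z = l * cj e z` for `‖z‖ ≤ R` and the backward iterates of the
complement of the disc shrink to a point `p`. -/
def NSD (g : Sph ≃ₜ Sph) (l : ℝ) (e : Bool) (R : ℝ) : Prop :=
  0 < R ∧ (∀ z : ℂ, ‖z‖ ≤ R → g (z : Sph) = (((l : ℂ) * cj e z : ℂ) : Sph)) ∧
    ∃ p : Sph, ∀ N ∈ 𝓝 p, ∃ n : ℕ, ∀ w : Sph, (∀ z : ℂ, ‖z‖ < R → w ≠ (z : Sph)) →
      ((g⁻¹) ^ n) w ∈ N

end Pool.Agent.N311.SH
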