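import Pool.Agent.N311.SH.Asm
import Pool.Agent.N311.SH.C2
import Pool.Agent.N985.SH.LA
import Pool.Agent.N565.SH.C1
import Pool.Agent.N75.SH.RM
import Pool.Agent.N767.SH.EXT
import Pool.Agent.N935.SH.Cir
import Pool.Agent.N170.SH.KLCa
import Pool.Agent.N296.SH.KL
import Pool.Agent.N169.SH.NF1
import Pool.Agent.N901.SH.NF2
import Pool.Agent.N507.SH.PP
import Pool.Agent.N457.SH.NS
import Pool.Agent.N311.SH.Or
import Pool.Agent.N199.SH.ISO
import Pool.Agent.N562.SH.LOW
import Pool.Agent.N900.SH.TR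
import Pool.Agent.N413.SH.Lin

/-! Project SH (helper311), page MP_c6d336_gt: N = 3.  Final theorem. -/

set_option autoImplicit false
open Metric

namespace Pool.Agent.N311.SH

/-- Tame Caratheodory extension and local linearization of homeomorphisms of the plane, up to a
holomorphic germ. -/
theorem klc_all : S_KLC :=
  Pool.Agent.N170.SH.klc Pool.Agent.N75.SH.rm
    (Pool.Agent.N767.SH.ext_pair (Pool.Agent.N565.SH.c1 Pool.Agent.N985.SH.la)
      (c2 Pool.Agent.N985.SH.la)) Pool.Agent.N935.SH.cir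

theorem final_of_lin (hlin : S_LIN) :
    IsLeast {n : ℕ | 1 ≤ n ∧ P (sphere (0 : EuclideanSpace ℝ (Fin 3)) 1) n} 3 := by
  have hkl : S_KL := Pool.Agent.N296.SH.kl klc_all hlin
  exact final (Pool.Agent.N169.SH.nf1 hkl) (Pool.Agent.N901.SH.nf2 hkl) Pool.Agent.N507.SH.pp
    Pool.Agent.N457.SH.ns Pool.Agent.N311.SHOr.orient Pool.Agent.N199.SH.iso
    Pool.Agent.N562.SH.low Pool.Agent.N900.SH.tr1 (Pool.Agent.N900.SH.tr2 Pool.Agent.N900.SH.tr1)

theorem final_all :
    IsLeast {n : ℕ | 1 ≤ n ∧ P (sphere (0 : EuclideanSpace ℝ (Fin 3)) 1) n} 3 :=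
  final_of_lin Pool.Agent.N413.SH.lin

end Pool.Agent.N311.SH
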